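import Mathlib
import Pool.Agent.X20.OscBase
import Pool.Agent.X20.OscLog
import Pool.Agent.X20.OscSign
import Pool.Agent.X20.OscNum
import Pool.Agent.X20.OscCommon

/-! The residue-class ordering (mod `3`) of partition counts with parts in `S_f`,
`f(x) = 2x - 1`, is not eventually periodic. -/

namespace Pool.Agent.Results.MP_fabcd1_nt.OddParts

open Finset Filter Topology Pool.Agent.X20.Osc

/-- The class `𝓕`: integer-valued polynomials, positive and increasing from some point on, with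
no fixed prime divisor. -/
def InF (f : Polynomial ℚ) : Prop :=
  (∀ x : ℤ, ∃ y : ℤ, f.eval (x : ℚ) = y) ∧
  (∃ n₀ : ℕ, (∀ n : ℕ, n₀ ≤ n → 0 < f.eval (n : ℚ)) ∧
    ∀ m n : ℕ, n₀ ≤ m → m < n → f.eval (m : ℚ) < f.eval (n : ℚ)) ∧
  (∀ p : ℕ, p.Prime → ∃ x y : ℤ, f.eval (x : ℚ) = y ∧ ¬ (p : ℤ) ∣ y)

/-- `S_f = {f(n) : n ≥ 1}`. -/
def S (f : Polynomial ℚ) : Set ℕ := {s | ∃ n : ℕ, 1 ≤ n ∧ f.eval (n : ℚ) = s}

open Classical in
/-- `p_S(a, m, n)`: the number of partitions of `n` with all parts in `S` whose number of parts is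
congruent to `a` modulo `m`. -/
noncomputable def pS (S : Set ℕ) (a m n : ℕ) : ℕ :=
  ((Finset.univ : Finset (Nat.Partition n)).filter
    (fun l => (∀ i ∈ l.parts, i ∈ S) ∧ Multiset.card l.parts ≡ a [MOD m])).card

/-- `σ = (i_0, ..., i_{m-1})` lists the indices `0, ..., m-1` so that
`c i_0 ≥ c i_1 ≥ ... ≥ c i_{m-1}`, equal values being listed with the smaller index first. -/
def IsListing {m : ℕ} (c : Fin m → ℕ) (σ : Equiv.Perm (Fin m)) : Prop :=
  ∀ i j : Fin m, i < j → c (σ j) < c (σ i) ∨ (c (σ j) = c (σ i) ∧ σ i < σ j)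

theorem exists_listing {m : ℕ} (c : Fin m → ℕ) : ∃! σ, IsListing c σ := by
  have key : ∀ σ : Equiv.Perm (Fin m), IsListing c σ ↔
      σ = Tuple.sort (fun i => OrderDual.toDual (c i)) := by
    intro σ
    rw [Tuple.eq_sort_iff]
    constructor
    · intro h
      constructor
      · intro i j hij
        rcases eq_or_lt_of_le hij with rfl | hij
        · exact le_rfl
        · simp only [Function.comp_apply, OrderDual.toDual_le_toDual]
          rcases h i j hij with h1 | h1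
          · exact h1.le
          · exact h1.1.le
      · intro i j hij hc
        rcases h i j hij with h1 | h1
        · exact absurd (OrderDual.toDual_inj.mp hc) h1.ne'
        · exact h1.2
    · rintro ⟨h1, h2⟩ i j hij
      have h3 := h1 hij.le
      simp only [Function.comp_apply, OrderDual.toDual_le_toDual] at h3
      rcases lt_or_eq_of_le h3 with h4 | h4
      · exact Or.inl h4
      · exact Or.inr ⟨h4, h2 i j hij (by rw [h4])⟩
  exact ⟨_, (key _).mpr rfl, fun σ h => (key σ).mp h⟩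

theorem listing_iff (c : Fin 3 → ℕ) (σ : Equiv.Perm (Fin 3)) (h : IsListing c σ) :
    c 1 ≤ c 0 ↔ σ.symm 0 < σ.symm 1 := by
  constructor
  · intro h1
    by_contra h2
    have hne : σ.symm 0 ≠ σ.symm 1 := fun h3 => by
      have := σ.symm.injective h3
      exact absurd this (by decide)
    have h3 : σ.symm 1 < σ.symm 0 := lt_of_le_of_ne (not_lt.mp h2) hne.symm
    have h4 := h _ _ h3
    simp only [Equiv.apply_symm_apply] at h4
    rcases h4 with h5 | h5
    · omega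
    · exact absurd h5.2 (by decide)
  · intro h1
    have h4 := h _ _ h1
    simp only [Equiv.apply_symm_apply] at h4
    rcases h4 with h5 | h5
    · exact h5.le
    · exact h5.1.le

/-- the polynomial `2x - 1` -/
noncomputable def f0 : Polynomial ℚ := 2 * Polynomial.X - 1

theorem f0_eval (x : ℚ) : f0.eval x = 2 * x - 1 := by
  unfold f0
  simp

theorem f0_inF : InF f0 := by
  refine ⟨fun x => ⟨2 * x - 1, by rw [f0_eval]; push_cast; ring⟩, ⟨1, ?_, ?_⟩, ?_⟩
  · intro n hn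
    rw [f0_eval]
    have : (1 : ℚ) ≤ n := by exact_mod_cast hn
    linarith
  · intro m n _ hmn
    rw [f0_eval, f0_eval]
    have : (m : ℚ) < n := by exact_mod_cast hmn
    linarith
  · intro p hp
    refine ⟨1, 1, by rw [f0_eval]; norm_num, ?_⟩
    intro h
    have := Int.le_of_dvd one_pos h
    have := hp.two_le
    omega

theorem mem_S_f0 (s : ℕ) : s ∈ S f0 ↔ s % 2 = 1 := by
  unfold S
  rw [Set.mem_ofPred_eq]
  constructor
  · rintro ⟨n, hn, h⟩
    rw [f0_eval] at h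
    have h1 : (2 * (n : ℤ) - 1) = s := by exact_mod_cast h
    omega
  · intro h
    refine ⟨(s + 1) / 2, by omega, ?_⟩
    rw [f0_eval]
    have h1 : 2 * ((s + 1) / 2) = s + 1 := by omega
    have h2 : (2 : ℚ) * (((s + 1) / 2 : ℕ) : ℚ) = s + 1 := by exact_mod_cast h1
    rw [h2]
    ring

/-- the weighted count in terms of residue classes -/
theorem fw_eq (w : ℂ) (hw : w ^ 3 = 1) (n : ℕ) :
    fw (fun i => i % 2 = 1) w n = (pS (S f0) 0 3 n : ℂ) + (pS (S f0) 1 3 n : ℂ) * w +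
      (pS (S f0) 2 3 n : ℂ) * w ^ 2 := by
  classical
  have hp : ∀ a : ℕ, (pS (S f0) a 3 n : ℂ) =
      ∑ l ∈ (Finset.univ : Finset (Nat.Partition n)).filter (fun l => ∀ i ∈ l.parts, i % 2 = 1),
        if Multiset.card l.parts ≡ a [MOD 3] then (1 : ℂ) else 0 := by
    intro a
    unfold pS
    rw [← Finset.sum_filter, Finset.filter_filter, Finset.sum_const, nsmul_eq_mul, mul_one]
    congr 2
    apply Finset.filter_congr
    intro l _
    simp only [mem_S_f0]
  unfold fw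
  rw [hp, hp, hp, Finset.sum_mul, Finset.sum_mul, ← Finset.sum_add_distrib,
    ← Finset.sum_add_distrib]
  apply Finset.sum_congr rfl
  intro l _
  set k := Multiset.card l.parts
  have hk : w ^ k = w ^ (k % 3) := by
    conv_lhs => rw [← Nat.mod_add_div k 3, pow_add, pow_mul, hw, one_pow, mul_one]
  rw [hk]
  have h3 : k % 3 = 0 ∨ k % 3 = 1 ∨ k % 3 = 2 := by omega
  rcases h3 with h | h | h
  · have h0 : k ≡ 0 [MOD 3] := h
    have h1 : ¬ k ≡ 1 [MOD 3] := fun h' => by have : k % 3 = 1 := h'; omega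
    have h2 : ¬ k ≡ 2 [MOD 3] := fun h' => by have : k % 3 = 2 := h'; omega
    rw [if_pos h0, if_neg h1, if_neg h2, h]; ring
  · have h0 : ¬ k ≡ 0 [MOD 3] := fun h' => by have : k % 3 = 0 := h'; omega
    have h1 : k ≡ 1 [MOD 3] := h
    have h2 : ¬ k ≡ 2 [MOD 3] := fun h' => by have : k % 3 = 2 := h'; omega
    rw [if_neg h0, if_pos h1, if_neg h2, h]; ring
  · have h0 : ¬ k ≡ 0 [MOD 3] := fun h' => by have : k % 3 = 0 := h'; omega
    have h1 : ¬ k ≡ 1 [MOD 3] := fun h' => by have : k % 3 = 1 := h'; omega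
    have h2 : k ≡ 2 [MOD 3] := h
    rw [if_neg h0, if_neg h1, if_pos h2, h]; ring

/-- difference of the counts for residues `0` and `1` -/
noncomputable def g (n : ℕ) : ℝ := (pS (S f0) 0 3 n : ℝ) - (pS (S f0) 1 3 n : ℝ)

/-- the two primitive cube roots of unity -/
noncomputable def w1 : ℂ := -u6
noncomputable def w2 : ℂ := u6 - 1

theorem w1_root : w1 ^ 2 + w1 + 1 = 0 := by
  unfold w1
  linear_combination u6_root

theorem w2_root : w2 ^ 2 + w2 + 1 = 0 := by
  unfold w2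
  linear_combination u6_root

theorem cube_of_root {w : ℂ} (h : w ^ 2 + w + 1 = 0) : w ^ 3 = 1 := by
  linear_combination (w - 1) * h

theorem g_eq (n : ℕ) : ((g n : ℝ) : ℂ) = (1 / 3 : ℂ) * ((1 - w2) * fw (fun i => i % 2 = 1) w1 n +
    (1 - w1) * fw (fun i => i % 2 = 1) w2 n) := by
  rw [fw_eq w1 (cube_of_root w1_root), fw_eq w2 (cube_of_root w2_root)]
  unfold g w1 w2
  push_cast
  have h := u6_root
  set P := (pS (S f0) 0 3 n : ℂ)
  set Q := (pS (S f0) 1 3 n : ℂ)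
  set R := (pS (S f0) 2 3 n : ℂ)
  linear_combination (-(1 / 3) * (2 * Q + R)) * h


theorem w_norm {w : ℂ} (h : w ^ 2 + w + 1 = 0) : ‖w‖ ≤ 1 := (re_of_root3 h).2.le

theorem sq_one_cases {ρ : ℂ} (h : ρ ^ 2 = 1) : ρ = 1 ∨ ρ = -1 := by
  have h1 : (ρ - 1) * (ρ + 1) = 0 := by linear_combination h
  rcases mul_eq_zero.mp h1 with h2 | h2
  · exact Or.inl (sub_eq_zero.mp h2)
  · exact Or.inr (eq_neg_of_add_eq_zero_left h2)

theorem Lam_bound {w ρ : ℂ} (hw : w ^ 2 + w + 1 = 0) (hρ : ‖ρ‖ = 1) :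
    (Lam 2 1 w ρ).re < 22 / 100 := by
  by_cases h2 : ρ ^ 2 = 1
  · rw [Lam_eq 2 1 w ρ h2, pow_one]
    have e : (Sd (w * ρ) / ((2 : ℕ) : ℂ)).re = (Sd (w * ρ)).re / 2 := by
      have : (Sd (w * ρ) / ((2 : ℕ) : ℂ)) = Sd (w * ρ) / ((2 : ℝ) : ℂ) := by push_cast; rfl
      rw [this, Complex.div_ofReal_re]
    rw [e]
    rcases sq_one_cases h2 with h5 | h5
    · rw [h5, mul_one]
      have := Sd_three_re_le hw
      linarith
    · have h6 := Sd_six_re_le (u := w * ρ) (by rw [h5]; linear_combination hw)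
      linarith
  · have h1 := Lam_norm_le 2 1 (by norm_num) w ρ (w_norm hw) hρ h2
    have h3 := (Complex.re_le_norm _).trans h1
    have h4 := pi_sq_lt
    norm_num at h3
    linarith

theorem one_sub_norm {w : ℂ} (h : w ^ 2 + w + 1 = 0) : ‖1 - w‖ ≤ 2 ∧ 1 ≤ ‖1 - w‖ := by
  obtain ⟨h1, h2⟩ := re_of_root3 h
  constructor
  · calc ‖1 - w‖ ≤ ‖(1 : ℂ)‖ + ‖w‖ := norm_sub_le _ _
      _ = 2 := by rw [h2, norm_one]; norm_num
  · have h3 := Complex.re_le_norm (1 - w)
    rw [Complex.sub_re, Complex.one_re, h1] at h3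
    linarith

/-- the generating function of `g` -/
theorem gf_g (q : ℂ) (hq : ‖q‖ < 1) : ∑' n, ((g n : ℝ) : ℂ) * q ^ n =
    (1 / 3 : ℂ) * ((1 - w2) * Complex.exp (Lq 2 1 w1 q) + (1 - w1) * Complex.exp (Lq 2 1 w2 q)) := by
  have h1 := gf_eq 2 1 le_rfl (by norm_num) w1 q (w_norm w1_root) hq
  have h2 := gf_eq 2 1 le_rfl (by norm_num) w2 q (w_norm w2_root) hq
  have s1 := (summable_fw (fun i => i % 2 = 1) w1 q (w_norm w1_root) hq).of_norm
  have s2 := (summable_fw (fun i => i % 2 = 1) w2 q (w_norm w2_root) hq).of_norm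
  rw [← h1, ← h2, ← tsum_mul_left, ← tsum_mul_left,
    ← (s1.mul_left (1 - w2)).tsum_add (s2.mul_left (1 - w1)), ← tsum_mul_left]
  apply tsum_congr
  intro n
  rw [g_eq]
  ring

theorem sum_g (r : ℝ) (hr0 : 0 ≤ r) (hr1 : r < 1) : Summable fun n => |g n| * r ^ n := by
  have hr : ‖(r : ℂ)‖ < 1 := by rw [Complex.norm_real, Real.norm_of_nonneg hr0]; exact hr1
  have s1 := (summable_fw (fun i => i % 2 = 1) w1 (r : ℂ) (w_norm w1_root) hr)
  have s2 := (summable_fw (fun i => i % 2 = 1) w2 (r : ℂ) (w_norm w2_root) hr)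
  apply ((s1.add s2)).of_nonneg_of_le (fun n => by positivity)
  intro n
  have e : |g n| * r ^ n = ‖((g n : ℝ) : ℂ) * (r : ℂ) ^ n‖ := by
    rw [norm_mul, norm_pow, Complex.norm_real, Complex.norm_real, Real.norm_of_nonneg hr0,
      Real.norm_eq_abs]
  rw [e, g_eq]
  have e2 : (1 / 3 : ℂ) * ((1 - w2) * fw (fun i => i % 2 = 1) w1 n +
      (1 - w1) * fw (fun i => i % 2 = 1) w2 n) * (r : ℂ) ^ n =
      (1 / 3 * (1 - w2)) * (fw (fun i => i % 2 = 1) w1 n * (r : ℂ) ^ n) +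
      (1 / 3 * (1 - w1)) * (fw (fun i => i % 2 = 1) w2 n * (r : ℂ) ^ n) := by ring
  rw [e2]
  refine (norm_add_le _ _).trans ?_
  rw [norm_mul (1 / 3 * (1 - w2)), norm_mul (1 / 3 * (1 - w1)), norm_mul (1 / 3 : ℂ) (1 - w2),
    norm_mul (1 / 3 : ℂ) (1 - w1)]
  have h3 : ‖(1 / 3 : ℂ)‖ = 1 / 3 := by norm_num
  rw [h3]
  have b1 := (one_sub_norm w1_root).1
  have b2 := (one_sub_norm w2_root).1
  have c1 : 1 / 3 * ‖1 - w2‖ ≤ 1 := by linarith
  have c2 : 1 / 3 * ‖1 - w1‖ ≤ 1 := by linarith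
  have n1 := norm_nonneg (fw (fun i => i % 2 = 1) w1 n * (r : ℂ) ^ n)
  have n2 := norm_nonneg (fw (fun i => i % 2 = 1) w2 n * (r : ℂ) ^ n)
  nlinarith

theorem not_periodic_sign (p N : ℕ) (hp : 0 < p)
    (hper : ∀ n, N ≤ n → (0 ≤ g n ↔ 0 ≤ g (n + p))) : False := by
  have hn1 : ‖(-1 : ℂ)‖ = 1 := by simp
  apply osc_contra g sum_g p N hp hper (22 / 100) (23 / 100) 10 (by norm_num)
    (by norm_num) (by norm_num) _
    (fun x => -1 * Complex.exp (-(x * (1 + ((-1 : ℝ) : ℂ) * Complex.I)))) _ _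
  · intro ρ hρ
    have hn := Complex.norm_eq_one_of_pow_eq_one hρ hp.ne'
    have h1 := radial 2 1 le_rfl (by norm_num) w1 ρ (w_norm w1_root) hn _ (Lam_bound w1_root hn)
    have h2 := radial 2 1 le_rfl (by norm_num) w2 ρ (w_norm w2_root) hn _ (Lam_bound w2_root hn)
    filter_upwards [h1, h2, self_mem_nhdsWithin] with x hx1 hx2 hx3
    have hx3' : 0 < x := hx3
    rw [gf_g _ (by
      rw [norm_mul, hn, one_mul, Complex.norm_real, Real.norm_of_nonneg (Real.exp_pos _).le,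
        Real.exp_lt_one_iff]
      linarith), norm_mul]
    have h3 : ‖(1 / 3 : ℂ)‖ = 1 / 3 := by norm_num
    rw [h3]
    have b1 := (one_sub_norm w1_root).1
    have b2 := (one_sub_norm w2_root).1
    have h4 := norm_add_le ((1 - w2) * Complex.exp (Lq 2 1 w1 (ρ * (Real.exp (-x) : ℂ))))
      ((1 - w1) * Complex.exp (Lq 2 1 w2 (ρ * (Real.exp (-x) : ℂ))))
    rw [norm_mul, norm_mul] at h4
    have hE := Real.exp_pos (22 / 100 / x)
    have h5 : ‖1 - w2‖ * ‖Complex.exp (Lq 2 1 w1 (ρ * (Real.exp (-x) : ℂ)))‖ ≤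
        2 * Real.exp (22 / 100 / x) := mul_le_mul b2 hx1 (norm_nonneg _) (by norm_num)
    have h6 : ‖1 - w1‖ * ‖Complex.exp (Lq 2 1 w2 (ρ * (Real.exp (-x) : ℂ)))‖ ≤
        2 * Real.exp (22 / 100 / x) := mul_le_mul b1 hx2 (norm_nonneg _) (by norm_num)
    linarith
  · intro x _
    exact norm_q (-1) hn1 (-1) x
  · have hL1 : (23 / 100 : ℝ) < (Lam 2 1 w1 (-1) / (1 + ((-1 : ℝ) : ℂ) * Complex.I)).re := by
      rw [Lam_eq 2 1 w1 (-1) (by norm_num), pow_one]
      have e0 : w1 * -1 = u6 := by unfold w1; ring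
      have e : ((2 : ℕ) : ℂ) = ((2 : ℝ) : ℂ) := by push_cast; rfl
      rw [e0, e, re_div (Sd u6) 2 (by norm_num)]
      have h1 := (Sd_six_lower u6_root u6_im).1
      norm_num at h1 ⊢
      linarith
    have hL2 : (Lam 2 1 w2 (-1) / (1 + ((-1 : ℝ) : ℂ) * Complex.I)).re < 22 / 100 := by
      rw [Lam_eq 2 1 w2 (-1) (by norm_num), pow_one]
      have e0 : w2 * -1 = 1 - u6 := by unfold w2; ring
      have e : ((2 : ℕ) : ℂ) = ((2 : ℝ) : ℂ) := by push_cast; rfl
      have hroot : (1 - u6) ^ 2 = (1 - u6) - 1 := by linear_combination u6_root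
      rw [e0, e, re_div (Sd (1 - u6)) 2 (by norm_num)]
      have h1 := Sd_six_re_le hroot
      have h2 : 0 ≤ (Sd (1 - u6)).im := by
        have h3 := Sd_tail (1 - u6) (norm_of_root hroot).le
        rw [partial_six hroot] at h3
        have h5 := (Complex.abs_im_le_norm _).trans h3
        rw [Complex.sub_im, Complex.sub_im] at h5
        have e1 : ((1 - u6) * (459 / 400) : ℂ) = ((459 / 400 : ℝ) : ℂ) * (1 - u6) := by
          push_cast; ring
        have e2 : (22 / 75 : ℂ) = ((22 / 75 : ℝ) : ℂ) := by push_cast; ring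
        rw [e1, e2, Complex.im_ofReal_mul, Complex.ofReal_im, Complex.sub_im, Complex.one_im] at h5
        have h6 := (re_of_root u6_root).2
        have h7 := u6_im
        have h8 : u6.im ≤ -(866 / 1000) := by nlinarith
        have h9 := (abs_le.mp h5).1
        norm_num at h9 ⊢
        linarith
      linarith
    have h1 := ev_lower 2 1 le_rfl (by norm_num) w1 (-1) (w_norm w1_root) hn1 (-1) _ hL1
    have h2 := ev_upper 2 1 le_rfl (by norm_num) w2 (-1) (w_norm w2_root) hn1 (-1) _ hL2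
    filter_upwards [h1, h2, self_mem_nhdsWithin] with x hx1 hx2 hx3
    have hx3' : 0 < x := hx3
    set q : ℂ := -1 * Complex.exp (-(x * (1 + ((-1 : ℝ) : ℂ) * Complex.I))) with hq
    have hlt : ‖q‖ < 1 := by
      rw [hq, norm_q (-1) hn1 (-1) x, Real.exp_lt_one_iff]
      linarith
    rw [gf_g q hlt]
    set E1 := Complex.exp (Lq 2 1 w1 q)
    set E2 := Complex.exp (Lq 2 1 w2 q)
    have e3 : (1 - w2) * E1 = 3 * ((1 / 3 : ℂ) * ((1 - w2) * E1 + (1 - w1) * E2)) - (1 - w1) * E2 := by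
      ring
    have h4 : ‖(1 - w2) * E1‖ ≤ 3 * ‖(1 / 3 : ℂ) * ((1 - w2) * E1 + (1 - w1) * E2)‖ +
        ‖1 - w1‖ * ‖E2‖ := by
      calc ‖(1 - w2) * E1‖ = ‖3 * ((1 / 3 : ℂ) * ((1 - w2) * E1 + (1 - w1) * E2)) -
            (1 - w1) * E2‖ := by rw [← e3]
        _ ≤ ‖3 * ((1 / 3 : ℂ) * ((1 - w2) * E1 + (1 - w1) * E2))‖ + ‖(1 - w1) * E2‖ :=
            norm_sub_le _ _
        _ = _ := by rw [norm_mul, norm_mul (1 - w1)]; norm_num
    rw [norm_mul] at h4
    have b1 := (one_sub_norm w1_root).1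
    have b2 := (one_sub_norm w2_root).2
    have hE := Real.exp_pos (22 / 100 / x)
    have h5 : ‖1 - w1‖ * ‖E2‖ ≤ 2 * Real.exp (22 / 100 / x) :=
      mul_le_mul b1 hx2 (norm_nonneg _) (by norm_num)
    have h6 : ‖E1‖ ≤ ‖1 - w2‖ * ‖E1‖ := le_mul_of_one_le_left (norm_nonneg _) b2
    have h7 := norm_nonneg ((1 / 3 : ℂ) * ((1 - w2) * E1 + (1 - w1) * E2))
    linarith

/-- **Q1 has a negative answer.**  The polynomial `f0 = 2x - 1` belongs to the class `𝓕`; for
`S = S_{f0}` (the odd numbers) and `m = 3` there is exactly one listing `u_n` for every `n`, and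
the sequence `u_n` is not eventually periodic. -/
theorem result : InF f0 ∧
    (∀ n : ℕ, ∃! σ : Equiv.Perm (Fin 3), IsListing (fun a : Fin 3 => pS (S f0) a 3 n) σ) ∧
    ∀ u : ℕ → Equiv.Perm (Fin 3),
      (∀ n, 1 ≤ n → IsListing (fun a : Fin 3 => pS (S f0) a 3 n) (u n)) →
      ¬ ∃ P : ℕ, 1 ≤ P ∧ ∃ N : ℕ, ∀ n, N ≤ n → u (n + P) = u n := by
  refine ⟨f0_inF, fun n => exists_listing _, ?_⟩
  rintro u hu ⟨P, hP, N, hper⟩
  apply not_periodic_sign P (N + 1) hP
  intro n hn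
  have key : ∀ n, 1 ≤ n → (0 ≤ g n ↔ (u n).symm 0 < (u n).symm 1) := by
    intro n hn
    rw [← listing_iff _ (u n) (hu n hn)]
    unfold g
    rw [sub_nonneg, Nat.cast_le]
    rfl
  rw [key n (by omega), key (n + P) (by omega), hper n (by omega)]

end Pool.Agent.Results.MP_fabcd1_nt.OddParts
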